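import Pool.Agent.W619.Y.Stm
import Pool.Agent.W619.TW.Rot

/-! The estimate for regular vector fields, from the logarithmic one. -/

set_option autoImplicit false
set_option linter.overlappingInstances false
set_option linter.unusedSectionVars false

universe u v

open FF IntermediateField Pool.Agent.W619.PQ Pool.Agent.W619.PL Pool.Agent.W619.TW
  Pool.Agent.W603.LV Pool.Agent.W619.Y

namespace Pool.Agent.W283.PG

/-- The determinant after a column operation. -/
theorem det_adjust {R : Type*} [CommRing R] {n : ℕ} (M A : Matrix (Fin n) (Fin n) R) (j0 : Fin n)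
    (c : Fin n → R) (s : R) (h0 : ∀ i, A i j0 = s * M i j0)
    (h : ∀ i j, j ≠ j0 → A i j = M i j - c j * M i j0) : A.det = s * M.det := by
  classical
  let N : Matrix (Fin n) (Fin n) R :=
    Matrix.of fun j i => M i j + (if j = j0 then 0 else -c j) * M i j0
  have h1 : N.det = M.transpose.det :=
    Matrix.det_eq_of_forall_row_eq_smul_add_const (fun j => if j = j0 then 0 else -c j) j0
      (by simp) (fun j i => rfl)
  have h2 : A.transpose = N.updateRow j0 (s • N j0) := by
    ext j i
    rw [Matrix.updateRow_apply]
    by_cases hj : j = j0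
    · subst hj
      simp [N, h0]
    · simp only [Matrix.transpose_apply, if_neg hj, N, Matrix.of_apply]
      rw [h i j hj]
      ring
  rw [← Matrix.det_transpose A, h2, Matrix.det_updateRow_smul, Matrix.updateRow_eq_self, h1,
    Matrix.det_transpose]

theorem main (h1 : S_PRES.{u, v}) (h2 : S_LOG.{u, v}) (h3 : S_EXT.{u, v}) (h4 : S_REGLOG.{u, v}) :
    S_REG.{u, v} := by
  intro k L _ _ _ _ _ n F _ G _ σ htr halg hσ N hN hfree x hxQ hxt hxG v
  obtain ⟨w, e, I, hwv, hIe, hI⟩ := exists_inertia G v
  obtain ⟨h, hhI, hord, ζ, hζ, hgen⟩ := exists_rot_generator w I hI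
  rw [hIe] at hord hζ
  rw [Subgroup.orderOf_coe] at hord
  have hGal : IsGaloisGroup G (fixedField G) L := isGaloisGroup_fixed G
  have hfd : FiniteDimensional (fixedField G) L :=
    IsGaloisGroup.finiteDimensional G (fixedField G) L
  have htrK : Algebra.trdeg k (fixedField G) = n := by
    rw [← htr, ← trdeg_add_eq k (fixedField G) (A := L),
      (trdeg_eq_zero : Algebra.trdeg (fixedField G) L = 0), add_zero]
  refine ⟨w, e, hwv, ?_⟩
  intro m b hbQ hb0 hgood D D' hD hD'
  obtain ⟨s, hs0, hs⟩ := v.surj
  have hsL : (s : L) ≠ 0 := by simpa using hs0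
  have hep : (0 : ℤ) < e := by exact_mod_cast hwv.1
  -- the logarithmic case
  have key : ∀ (E : Fin n → Derivation k (fixedField G) (fixedField G))
      (E' : Fin n → Derivation k L L), (∀ j, Pres v (E j)) → (∀ j, v.Reg (E j s / s)) →
      (∀ j (f : fixedField G), E' j (f : L) = (E j f : L)) →
      (e = 1 → ∃ i, ∃ z ∈ F i, w.ord z ≠ 0) →
      Ge w (m * e) ((∏ i, b i) * (Matrix.of fun i j => E' j (x i)).det ^ m) := by
    intro E E' hE hEs hE' hex
    refine h4 k L n F G σ hσ N m e hN hfree w h ζ hord hζ hgen hex x b hxQ hxt hxG hbQ hb0 hgood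
      E' ?_ ?_
    · intro j
      refine h2 k (fixedField G) L v w e hwv (E' j) ?_
      intro f
      have h5 : v.Reg (E j f / f) := log_of_pres v (E j) (hE j) hs0 hs (hEs j) f
      have h6 := hwv.reg.2 h5
      rw [map_div₀] at h6
      have h7 : E' j (algebraMap (fixedField G) L f) = algebraMap (fixedField G) L (E j f) :=
        hE' j f
      rw [h7]
      exact h6
    · intro j z
      obtain ⟨D'', -, h6, h7⟩ := h3 k (fixedField G) L n htrK (E j)
      have h8 : E' j = D'' := h6 (E' j) (hE' j)
      rw [h8]
      exact h7 (h : L ≃ₐ[k] L) (fun f => f.2 h) z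
  by_cases hex : e = 1 → ∃ i, ∃ z ∈ F i, w.ord z ≠ 0
  · by_cases hall : ∀ j, v.Reg (D j s / s)
    · exact (key D D' hD hall hD' hex).mono (by positivity)
    push Not at hall
    obtain ⟨j0, hj0⟩ := hall
    have hsr : v.Reg s := Or.inr (by omega)
    have hDs0 : D j0 s ≠ 0 := by
      intro h0
      exact hj0 (Or.inl (by rw [h0, zero_div]))
    have hDs : v.ord (D j0 s) = 0 := by
      have h5 := (hD j0 s hsr).resolve_left hDs0
      by_contra hne
      apply hj0
      right
      rw [v.ord_div hDs0 hs0]
      omega
    have hcr : ∀ j, v.Reg (D j s / D j0 s) := by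
      intro j
      rw [div_eq_mul_inv]
      exact v.reg_mul (hD j s hsr) (Or.inr (by rw [v.ord_inv, hDs]; simp))
    let E : Fin n → Derivation k (fixedField G) (fixedField G) := fun j =>
      if j = j0 then s • D j0 else D j - (D j s / D j0 s) • D j0
    let E' : Fin n → Derivation k L L := fun j =>
      if j = j0 then (s : L) • D' j0 else D' j - ((D j s / D j0 s : fixedField G) : L) • D' j0
    have hE1 : ∀ j, Pres v (E j) := by
      intro j f hf
      by_cases hj : j = j0
      · simp only [E, if_pos hj]
        exact v.reg_mul hsr (hD j0 f hf)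
      · simp only [E, if_neg hj]
        change v.Reg (D j f - (D j s / D j0 s) * D j0 f)
        rw [sub_eq_add_neg]
        exact v.reg_add (hD j f hf) (v.reg_neg (v.reg_mul (hcr j) (hD j0 f hf)))
    have hE2 : ∀ j, v.Reg (E j s / s) := by
      intro j
      by_cases hj : j = j0
      · simp only [E, if_pos hj]
        change v.Reg (s * D j0 s / s)
        rw [mul_div_cancel_left₀ _ hs0]
        exact hD j0 s hsr
      · simp only [E, if_neg hj]
        change v.Reg ((D j s - (D j s / D j0 s) * D j0 s) / s)
        rw [div_mul_cancel₀ _ hDs0, sub_self, zero_div]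
        exact v.reg_zero
    have hE3 : ∀ j (f : fixedField G), E' j (f : L) = (E j f : L) := by
      intro j f
      by_cases hj : j = j0
      · simp only [E, E', if_pos hj]
        change (s : L) * D' j0 (f : L) = ((s * D j0 f : fixedField G) : L)
        rw [hD']
        rfl
      · simp only [E, E', if_neg hj]
        change D' j (f : L) - ((D j s / D j0 s : fixedField G) : L) * D' j0 (f : L) =
          ((D j f - (D j s / D j0 s) * D j0 f : fixedField G) : L)
        rw [hD', hD']
        rfl
    have h5 := key E E' hE1 hE2 hE3 hex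
    have h6 : (Matrix.of fun i j => E' j (x i)).det =
        (s : L) * (Matrix.of fun i j => D' j (x i)).det := by
      refine det_adjust _ _ j0 (fun j => ((D j s / D j0 s : fixedField G) : L)) (s : L) ?_ ?_
      · intro i
        simp only [Matrix.of_apply, E', if_pos]
        rfl
      · intro i j hj
        simp only [Matrix.of_apply, E', if_neg hj]
        rfl
    rw [h6, mul_pow] at h5
    have h7 : (∏ i, b i) * ((s : L) ^ m * (Matrix.of fun i j => D' j (x i)).det ^ m) =
        (s : L) ^ m * ((∏ i, b i) * (Matrix.of fun i j => D' j (x i)).det ^ m) := by ring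
    rw [h7] at h5
    have h8 : w.ord ((s : L) ^ m) = m * e := by
      rw [w.ord_pow]
      have h9 := hwv.2 s
      rw [hs, mul_one] at h9
      change w.ord (s : L) = e at h9
      rw [h9]
    refine Ge.of_mul' (pow_ne_zero m hsL) h8 ?_
    rw [zero_add]
    exact h5
  · push Not at hex
    obtain ⟨he1, htriv⟩ := hex
    have hF : ∀ i, Quo G σ F i ≤ F i := fun i => inf_le_left
    have hP : ∀ j, ∀ z, w.Reg z → w.Reg (D' j z) := by
      intro j
      refine h1 k (fixedField G) L v w e hwv (D' j) ?_ (Or.inl he1)
      intro f hf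
      have h7 : D' j (algebraMap (fixedField G) L f) = algebraMap (fixedField G) L (D j f) :=
        hD' j f
      rw [h7]
      exact hwv.reg.2 (hD j f hf)
    have h5 : Ge w 0 (Matrix.of fun i j => D' j (x i)).det := by
      refine ge_det w _ fun i j => ?_
      exact hP j (x i) (Or.inr (htriv i (x i) (hF i (hxQ i))).ge)
    have h6 : Ge w 0 (∏ i, b i) := by
      have h7 := Ge.prod (P := w) Finset.univ b (fun _ => 0)
        (fun i _ => Or.inr (htriv i (b i) (hF i (hbQ i))).ge)
      simpa using h7
    have h7 := h6.mul (h5.pow m)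
    simpa using h7

end Pool.Agent.W283.PG
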